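import Mathlib
import Pool.Agent.Helper65.ZR.Upper

set_option autoImplicit false

namespace Pool.Agent.Results.MP_b57ceb_co.MixedEqualsThree

open Finset
open Pool.Agent.Helper65.ZR

/-- An edge colouring of the complete graph on `n` vertices: the edge `{i, j}` (`i ≠ j`) has
colour `c s(i, j)`; the values of `c` on the diagonal are never used. -/
abbrev EdgeColouring (n : ℕ) (α : Type) : Type := Sym2 (Fin n) → α

/-- A copy in `K_n` of a member of the family `τ_{m+1}`: a tree `T` on `m + 1` vertices together
with an injection of its vertices into the vertices of `K_n`. -/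
structure TreeCopy (m n : ℕ) where
  T : SimpleGraph (Fin (m + 1))
  isTree : T.IsTree
  f : Fin (m + 1) ↪ Fin n

open Classical in
/-- The edges of the copy: the pairs `{f a, f b}` with `{a, b}` an edge of `T`. -/
noncomputable def TreeCopy.edges {m n : ℕ} (P : TreeCopy m n) : Finset (Sym2 (Fin n)) :=
  P.T.edgeFinset.map P.f.sym2Map

/-- Every colouring of the edges of `K_n` with `k` colours has a monochromatic copy of some tree
on `m + 1` vertices. -/
def MonoArrow (m k n : ℕ) : Prop :=
  ∀ c : EdgeColouring n (Fin k), ∃ P : TreeCopy m n, ∃ a : Fin k, ∀ e ∈ P.edges, c e = a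

/-- `R(τ_{m+1}, k)`. -/
noncomputable def treeRamsey (m k : ℕ) : ℕ := sInf {n | MonoArrow m k n}

/-- Every colouring of the edges of `K_n` with the colours `∞` (here `none`) and the elements of
`Z_m` (here `some z`) has a copy of some tree on `m + 1` vertices with all edges coloured `∞`, or
a copy of some tree on `m + 1` vertices with all edges coloured in `Z_m` and sum of colours `0`. -/
def MixedArrow (m n : ℕ) : Prop :=
  ∀ c : EdgeColouring n (Option (ZMod m)),
    (∃ P : TreeCopy m n, ∀ e ∈ P.edges, c e = none) ∨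
    (∃ P : TreeCopy m n, (∀ e ∈ P.edges, c e ≠ none) ∧ ∑ e ∈ P.edges, (c e).getD 0 = 0)

/-- `R(τ_{m+1}, τ_{m+1}; {∞} ∪ Z_m)`. -/
noncomputable def mixedRamsey (m : ℕ) : ℕ := sInf {n | MixedArrow m n}

lemma mem_edges {m n : ℕ} (P : TreeCopy m n) (e : Sym2 (Fin n)) :
    e ∈ P.edges ↔ ∃ a b, P.T.Adj a b ∧ s(P.f a, P.f b) = e := by
  classical
  unfold TreeCopy.edges
  rw [Finset.mem_map]
  constructor
  · rintro ⟨e', he', rfl⟩
    induction e' using Sym2.ind with
    | _ a b =>
      rw [SimpleGraph.mem_edgeFinset, SimpleGraph.mem_edgeSet] at he'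
      exact ⟨a, b, he', rfl⟩
  · rintro ⟨a, b, hab, rfl⟩
    exact ⟨s(a, b), by rw [SimpleGraph.mem_edgeFinset]; exact hab, rfl⟩

lemma card_edges {m n : ℕ} (P : TreeCopy m n) : P.edges.card = m := by
  classical
  unfold TreeCopy.edges
  rw [Finset.card_map]
  have := P.isTree.card_edgeFinset
  rw [Fintype.card_fin] at this
  have h2 : P.T.edgeFinset.card + 1 = m + 1 := by convert this
  omega

theorem mixed_upper (m : ℕ) (hm : 1 ≤ m) :
    MixedArrow m (if Even m then 2 * m + 1 else 2 * m) := by
  classical
  have : NeZero m := ⟨by omega⟩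
  intro c
  rcases upper_core c (by rw [Fintype.card_fin]) with ⟨U, hU, hG⟩ | ⟨U, hU, hG⟩
  · left
    obtain ⟨T, f, hT, h1, -⟩ := Grow.tree (w := fun _ => (0 : ℕ)) hG hU (by
      intro a b h
      refine ⟨h.1.symm, ?_⟩
      rw [Sym2.eq_swap]
      exact h.2)
    refine ⟨⟨T, hT, f⟩, ?_⟩
    intro e he
    rw [mem_edges] at he
    obtain ⟨a, b, hab, rfl⟩ := he
    exact (h1 a b hab).2
  · right
    obtain ⟨T, f, hT, h1, h2⟩ := Grow.tree (w := fun e => (c e).getD 0) hG hU (by
      intro a b h
      refine ⟨h.1.symm, ?_⟩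
      rw [Sym2.eq_swap]
      exact h.2)
    refine ⟨⟨T, hT, f⟩, ?_, ?_⟩
    · intro e he
      rw [mem_edges] at he
      obtain ⟨a, b, hab, rfl⟩ := he
      exact (h1 a b hab).2
    · unfold TreeCopy.edges
      rw [Finset.sum_map]
      exact h2

theorem mono_of_mixed (m n : ℕ) (hm : 1 ≤ m) (h : MixedArrow m n) : MonoArrow m 3 n := by
  classical
  intro c
  let g : Fin 3 → Option (ZMod m) := fun a => if a = 0 then none else if a = 1 then some 0 else some 1
  rcases h (fun e => g (c e)) with ⟨P, hP⟩ | ⟨P, hP1, hP2⟩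
  · refine ⟨P, 0, ?_⟩
    intro e he
    have := hP e he
    by_contra hne
    simp only [g, if_neg hne] at this
    split_ifs at this
  · have h0 : ∀ e ∈ P.edges, c e = 1 ∨ c e = 2 := by
      intro e he
      have h1 : c e ≠ 0 := by
        intro h
        apply hP1 e he
        simp [g, h]
      omega
    have h1 : ∑ e ∈ P.edges, (g (c e)).getD 0 = ((P.edges.filter fun e => c e = 2).card : ZMod m) := by
      rw [← Finset.sum_boole]
      apply Finset.sum_congr rfl
      intro e he
      rcases h0 e he with h | h
      · simp [g, h]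
      · simp [g, h]
    rw [h1, ZMod.natCast_eq_zero_iff] at hP2
    have h2 : (P.edges.filter fun e => c e = 2).card ≤ m := by
      refine (Finset.card_filter_le _ _).trans ?_
      rw [card_edges]
    obtain ⟨q, hq⟩ := hP2
    have h3 : q = 0 ∨ q = 1 := by
      by_contra hcon
      have : 2 ≤ q := by omega
      have : m * 2 ≤ m * q := Nat.mul_le_mul_left m this
      omega
    rcases h3 with rfl | rfl
    · refine ⟨P, 1, ?_⟩
      intro e he
      rw [mul_zero, Finset.card_eq_zero, Finset.filter_eq_empty_iff] at hq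
      exact (h0 e he).resolve_right (hq he)
    · refine ⟨P, 2, ?_⟩
      intro e he
      rw [mul_one] at hq
      have h4 : (P.edges.filter fun e => c e = 2) = P.edges := by
        apply Finset.eq_of_subset_of_card_le (Finset.filter_subset _ _)
        rw [hq, card_edges]
      rw [← h4, Finset.mem_filter] at he
      exact he.2

lemma const_of_tree {k : ℕ} {T : SimpleGraph (Fin (k + 1))} (hT : T.IsTree) (φ : Fin (k + 1) → ℕ)
    (h : ∀ a b, T.Adj a b → φ a = φ b) : ∀ a b, φ a = φ b := by
  intro a b
  obtain ⟨p⟩ := hT.connected.preconnected a b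
  induction p with
  | nil => rfl
  | cons hadj _ ih => exact (h _ _ hadj).trans ih

lemma no_inj {m : ℕ} (g : Fin (m + 1) → ℕ) (hg : ∀ i, g i < m) (hinj : Function.Injective g) :
    False := by
  have h1 : Function.Injective (fun i => (⟨g i, hg i⟩ : Fin m)) := by
    intro i j hij
    exact hinj (congrArg Fin.val hij)
  have := Fintype.card_le_of_injective _ h1
  rw [Fintype.card_fin, Fintype.card_fin] at this
  omega

theorem mono_lower (m n : ℕ) (hm : 1 ≤ m) (h : MonoArrow m 3 n) :
    (if Even m then 2 * m + 1 else 2 * m) ≤ n := by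
  classical
  by_contra hn
  push Not at hn
  -- the colouring by residues modulo 4
  let col : ℕ → ℕ → Fin 3 := fun i j =>
    if (i / 2) % 2 = (j / 2) % 2 then 0 else if i % 2 = j % 2 then 1 else 2
  have hsymm : ∀ i j, col i j = col j i := by
    intro i j
    simp only [col, eq_comm (a := (i / 2) % 2), eq_comm (a := i % 2)]
  obtain ⟨P, a, hP⟩ := h (Sym2.lift ⟨fun i j => col i j, fun i j => hsymm i j⟩)
  have hcol : ∀ u v, P.T.Adj u v → col (P.f u) (P.f v) = a := by
    intro u v huv
    exact hP _ ((mem_edges P _).2 ⟨u, v, huv, rfl⟩)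
  have hfinj : ∀ u v, ((P.f u : Fin n) : ℕ) = ((P.f v : Fin n) : ℕ) → u = v := fun u v huv =>
    P.f.injective (Fin.ext huv)
  have hlt : ∀ u, ((P.f u : Fin n) : ℕ) < n := fun u => (P.f u).2
  have hbound : ∀ i, i < n → 2 * (i / 4) + i % 2 < m := by
    intro i hi
    split_ifs at hn with hev
    · obtain ⟨q, hq⟩ := hev
      omega
    · rw [Nat.not_even_iff_odd] at hev
      obtain ⟨q, hq⟩ := hev
      omega
  have hn' : n ≤ 2 * m := by
    split_ifs at hn <;> omega
  have h3 : a = 0 ∨ a = 1 ∨ a = 2 := by omega
  rcases h3 with rfl | rfl | rfl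
  · have hc := const_of_tree P.isTree (fun u => ((P.f u : Fin n) : ℕ) / 2 % 2) (by
      intro u v huv
      have := hcol u v huv
      simp only [col] at this
      split_ifs at this with h1 h2
      · exact h1
      · exact absurd this (by decide)
      · exact absurd this (by decide))
    refine no_inj (fun u => 2 * (((P.f u : Fin n) : ℕ) / 4) + ((P.f u : Fin n) : ℕ) % 2)
      (fun u => hbound _ (hlt u)) ?_
    intro u v huv
    apply hfinj
    have h1 := hc u v
    simp only at h1 huv
    omega
  · have hc := const_of_tree P.isTree (fun u => ((P.f u : Fin n) : ℕ) % 2) (by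
      intro u v huv
      have := hcol u v huv
      simp only [col] at this
      split_ifs at this with h1 h2
      · exact absurd this (by decide)
      · exact h2
      · exact absurd this (by decide))
    refine no_inj (fun u => ((P.f u : Fin n) : ℕ) / 2) (fun u => by
      have := hlt u
      omega) ?_
    intro u v huv
    apply hfinj
    have h1 := hc u v
    simp only at h1 huv
    omega
  · have hc := const_of_tree P.isTree
      (fun u => (((P.f u : Fin n) : ℕ) % 2 + ((P.f u : Fin n) : ℕ) / 2 % 2) % 2) (by
      intro u v huv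
      have := hcol u v huv
      simp only [col] at this
      split_ifs at this with h1 h2
      · exact absurd this (by decide)
      · exact absurd this (by decide)
      · omega)
    refine no_inj (fun u => 2 * (((P.f u : Fin n) : ℕ) / 4) + ((P.f u : Fin n) : ℕ) % 2)
      (fun u => hbound _ (hlt u)) ?_
    intro u v huv
    apply hfinj
    have h1 := hc u v
    simp only at h1 huv
    omega

/-- For every `m ≥ 1` the two numbers are equal; their common value is `2 m + 1` for even `m` and
`2 m` for odd `m`. -/
theorem result (m : ℕ) (hm : 1 ≤ m) :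
    treeRamsey m 3 = mixedRamsey m ∧
    IsLeast {n | MonoArrow m 3 n} (if Even m then 2 * m + 1 else 2 * m) ∧
    IsLeast {n | MixedArrow m n} (if Even m then 2 * m + 1 else 2 * m) := by
  have h1 : IsLeast {n | MonoArrow m 3 n} (if Even m then 2 * m + 1 else 2 * m) :=
    ⟨mono_of_mixed m _ hm (mixed_upper m hm), fun n hn => mono_lower m n hm hn⟩
  have h2 : IsLeast {n | MixedArrow m n} (if Even m then 2 * m + 1 else 2 * m) :=
    ⟨mixed_upper m hm, fun n hn => mono_lower m n hm (mono_of_mixed m n hm hn)⟩
  refine ⟨?_, h1, h2⟩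
  rw [treeRamsey, mixedRamsey, h1.csInf_eq, h2.csInf_eq]

end Pool.Agent.Results.MP_b57ceb_co.MixedEqualsThree
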